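import Mathlib

/-!
A small imperative language on natural numbers, with the time of unary arithmetic: evaluating an
expression costs one step and the value of the result, for each of its subexpressions.
-/

namespace Q220.Adm

/-- Arithmetic expressions in the registers `0, 1, 2, ...` (subtraction is truncated, `mod` and
`div` are the remainder and the integer quotient). -/
inductive Expr
  | num (c : ℕ)
  | var (x : ℕ)
  | add (a b : Expr)
  | sub (a b : Expr)
  | mul (a b : Expr)
  | div (a b : Expr)
  | mod (a b : Expr)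

/-- The value of an expression. -/
def Expr.val (ρ : ℕ → ℕ) : Expr → ℕ
  | num c => c
  | var x => ρ x
  | add a b => a.val ρ + b.val ρ
  | sub a b => a.val ρ - b.val ρ
  | mul a b => a.val ρ * b.val ρ
  | div a b => a.val ρ / b.val ρ
  | mod a b => a.val ρ % b.val ρ

/-- The time for the evaluation: for each subexpression one step plus its value. -/
def Expr.time (ρ : ℕ → ℕ) : Expr → ℕ
  | num c => 1 + c
  | var x => 1 + ρ x
  | add a b => 1 + (a.val ρ + b.val ρ) + a.time ρ + b.time ρ
  | sub a b => 1 + (a.val ρ - b.val ρ) + a.time ρ + b.time ρ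
  | mul a b => 1 + (a.val ρ * b.val ρ) + a.time ρ + b.time ρ
  | div a b => 1 + (a.val ρ / b.val ρ) + a.time ρ + b.time ρ
  | mod a b => 1 + (a.val ρ % b.val ρ) + a.time ρ + b.time ρ

/-- Programs: assign the value of `e` to register `x`; print the value of `e`; do nothing; one
after the other; do `P` if the value of `e` is `0`, and `Q` otherwise; do `P` again and again, as
many times as the value of `e` at the beginning. -/
inductive Prog
  | set (x : ℕ) (e : Expr)
  | print (e : Expr)
  | skip
  | seq (P Q : Prog)
  | ifz (e : Expr) (P Q : Prog)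
  | loop (e : Expr) (P : Prog)

/-- Configurations: the registers, what has been printed, and the time used. -/
structure Conf where
  reg : ℕ → ℕ
  out : List ℕ
  time : ℕ

/-- The configuration after the time `t` has been used for a test. -/
def Conf.tick (s : Conf) (t : ℕ) : Conf := { s with time := s.time + t }

/-- The execution of a program. Every instruction costs one step and the time for the evaluation
of its expression. -/
def Prog.run : Prog → Conf → Conf
  | set x e, s => ⟨Function.update s.reg x (e.val s.reg), s.out, s.time + (1 + e.time s.reg)⟩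
  | print e, s => ⟨s.reg, s.out ++ [e.val s.reg], s.time + (1 + e.time s.reg)⟩
  | skip, s => s.tick 1
  | seq P Q, s => Q.run (P.run s)
  | ifz e P Q, s => if e.val s.reg = 0 then P.run (s.tick (1 + e.time s.reg))
      else Q.run (s.tick (1 + e.time s.reg))
  | loop e P, s => P.run^[e.val s.reg] (s.tick (1 + e.time s.reg))

/-- The start: the input `n` is in register `0`, the other registers are `0`. -/
def start (n : ℕ) : Conf := ⟨fun x => if x = 0 then n else 0, [], 0⟩

/-- The list computed by the program on the input `n`. -/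
def Prog.output (P : Prog) (n : ℕ) : List ℕ := (P.run (start n)).out

/-- The running time of the program on the input `n`. -/
def Prog.runtime (P : Prog) (n : ℕ) : ℕ := (P.run (start n)).time

/-- The number of leaves. -/
def Expr.size : Expr → ℕ
  | num _ => 1
  | var _ => 1
  | add a b => a.size + b.size
  | sub a b => a.size + b.size
  | mul a b => a.size + b.size
  | div a b => a.size + b.size
  | mod a b => a.size + b.size

/-- All constants and registers in the expression have value at most `M`. -/
def Expr.Small (ρ : ℕ → ℕ) (M : ℕ) : Expr → Prop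
  | num c => c ≤ M
  | var x => ρ x ≤ M
  | add a b => a.Small ρ M ∧ b.Small ρ M
  | sub a b => a.Small ρ M ∧ b.Small ρ M
  | mul a b => a.Small ρ M ∧ b.Small ρ M
  | div a b => a.Small ρ M ∧ b.Small ρ M
  | mod a b => a.Small ρ M ∧ b.Small ρ M

lemma Expr.size_pos (e : Expr) : 1 ≤ e.size := by
  induction e with
  | num c => exact le_rfl
  | var x => exact le_rfl
  | add a b ha hb => unfold Expr.size; omega
  | sub a b ha hb => unfold Expr.size; omega
  | mul a b ha hb => unfold Expr.size; omega
  | div a b ha hb => unfold Expr.size; omega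
  | mod a b ha hb => unfold Expr.size; omega

lemma pow_add_ge {K a b : ℕ} (hK : 2 ≤ K) (ha : 1 ≤ a) (hb : 1 ≤ b) :
    K ^ a + K ^ b ≤ K ^ (a + b) := by
  have h1 : 2 ≤ K ^ a := le_trans hK (Nat.le_self_pow (by omega) K)
  have h2 : 2 ≤ K ^ b := le_trans hK (Nat.le_self_pow (by omega) K)
  rw [pow_add]
  nlinarith

lemma Expr.val_le {ρ : ℕ → ℕ} {M : ℕ} (hM : 1 ≤ M) :
    ∀ e : Expr, e.Small ρ M → e.val ρ ≤ (M + 1) ^ e.size := by
  have hK : 2 ≤ M + 1 := by omega
  intro e
  induction e with
  | num c => intro h; simp only [Expr.size, pow_one, Expr.val]; unfold Expr.Small at h; omega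
  | var x => intro h; simp only [Expr.size, pow_one, Expr.val]; unfold Expr.Small at h; omega
  | add a b ha hb =>
    rintro ⟨h1, h2⟩
    exact (Nat.add_le_add (ha h1) (hb h2)).trans (pow_add_ge hK a.size_pos b.size_pos)
  | sub a b ha hb =>
    rintro ⟨h1, h2⟩
    refine (Nat.sub_le _ _).trans ((ha h1).trans ?_)
    exact Nat.pow_le_pow_right (by omega) (Nat.le_add_right _ _)
  | mul a b ha hb =>
    rintro ⟨h1, h2⟩
    refine (Nat.mul_le_mul (ha h1) (hb h2)).trans (le_of_eq ?_)
    exact (pow_add _ _ _).symm
  | div a b ha hb =>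
    rintro ⟨h1, h2⟩
    refine (Nat.div_le_self _ _).trans ((ha h1).trans ?_)
    exact Nat.pow_le_pow_right (by omega) (Nat.le_add_right _ _)
  | mod a b ha hb =>
    rintro ⟨h1, h2⟩
    refine (Nat.mod_le _ _).trans ((ha h1).trans ?_)
    exact Nat.pow_le_pow_right (by omega) (Nat.le_add_right _ _)

lemma Expr.time_le {ρ : ℕ → ℕ} {M : ℕ} (hM : 1 ≤ M) :
    ∀ e : Expr, e.Small ρ M → e.time ρ + 1 ≤ 4 * e.size * (M + 1) ^ e.size := by
  have hK : 2 ≤ M + 1 := by omega
  intro e
  have key : ∀ a b : Expr, ∀ v : ℕ, v ≤ (M + 1) ^ (a.size + b.size) →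
      a.time ρ + 1 ≤ 4 * a.size * (M + 1) ^ a.size → b.time ρ + 1 ≤ 4 * b.size * (M + 1) ^ b.size →
      1 + v + a.time ρ + b.time ρ + 1 ≤
        4 * (a.size + b.size) * (M + 1) ^ (a.size + b.size) := by
    intro a b v hv h1 h2
    have ha := a.size_pos
    have hb := b.size_pos
    set x := (M + 1) ^ a.size with hx
    set y := (M + 1) ^ b.size with hy
    have hx2 : 2 ≤ x := le_trans hK (Nat.le_self_pow (by omega) _)
    have hy2 : 2 ≤ y := le_trans hK (Nat.le_self_pow (by omega) _)
    rw [pow_add] at hv ⊢
    rw [← hx, ← hy] at hv ⊢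
    have h3 : 4 * a.size * x ≤ 2 * a.size * (x * y) := by nlinarith [Nat.zero_le (a.size * x)]
    have h4 : 4 * b.size * y ≤ 2 * b.size * (x * y) := by nlinarith [Nat.zero_le (b.size * y)]
    have h5 : (a.size + b.size) * (x * y) ≥ 2 * (x * y) := Nat.mul_le_mul_right _ (by omega)
    nlinarith
  induction e with
  | num c =>
    intro h
    unfold Expr.Small at h
    simp only [Expr.size, pow_one, Expr.time]
    omega
  | var x =>
    intro h
    unfold Expr.Small at h
    simp only [Expr.size, pow_one, Expr.time]
    omega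
  | add a b ha hb =>
    rintro ⟨h1, h2⟩
    exact key a b _ (Expr.val_le hM (Expr.add a b) ⟨h1, h2⟩) (ha h1) (hb h2)
  | sub a b ha hb =>
    rintro ⟨h1, h2⟩
    exact key a b _ (Expr.val_le hM (Expr.sub a b) ⟨h1, h2⟩) (ha h1) (hb h2)
  | mul a b ha hb =>
    rintro ⟨h1, h2⟩
    exact key a b _ (Expr.val_le hM (Expr.mul a b) ⟨h1, h2⟩) (ha h1) (hb h2)
  | div a b ha hb =>
    rintro ⟨h1, h2⟩
    exact key a b _ (Expr.val_le hM (Expr.div a b) ⟨h1, h2⟩) (ha h1) (hb h2)
  | mod a b ha hb =>
    rintro ⟨h1, h2⟩
    exact key a b _ (Expr.val_le hM (Expr.mod a b) ⟨h1, h2⟩) (ha h1) (hb h2)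

/-- Iteration with an invariant. -/
lemma iterate_inv {α : Type} (f : α → α) (Q : ℕ → α → Prop) (k : ℕ) (s : α) (h0 : Q 0 s)
    (hs : ∀ i < k, ∀ t, Q i t → Q (i + 1) (f t)) : Q k (f^[k] s) := by
  induction k with
  | zero => exact h0
  | succ k ih =>
    rw [Function.iterate_succ_apply']
    exact hs k (Nat.lt_succ_self k) _ (ih fun i hi => hs i (by omega))

end Q220.Adm
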