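import Pool.Agent.Q220.Adm.Digits
import Pool.Agent.Q220.Adm.Lang

/-!
The program that computes the set, its correctness and its running time.
-/

namespace Q220.Adm

open Finset Expr Prog

/-! ### The program -/

/-- count the divisors between `2` and `p + 1` of the number in register `1` -/
def inner : Prog :=
  seq (set 2 (add (var 2) (num 1)))
    (set 3 (add (var 3) (sub (num 1) (mod (var 1) (var 2)))))

/-- the test if register `1` contains a prime `p` with `n ≤ 2 p ^ 3` -/
def test : Expr :=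
  add (sub (var 3) (num 1)) (sub (var 0) (mul (num 2) (mul (var 1) (mul (var 1) (var 1)))))

/-- increase register `1` unless it contains such a prime -/
def outer : Prog :=
  seq (set 2 (num 1)) (seq (set 3 (num 0)) (seq (loop (var 1) inner)
    (ifz test skip (set 1 (add (var 1) (num 1))))))

/-- find the least such prime -/
def find : Prog := seq (set 1 (num 2)) (loop (mul (num 2) (var 0)) outer)

def two_p : Expr := mul (num 2) (var 1)
def E0 : Expr := mod (var 4) two_p
def E1 : Expr := mod (div (var 4) two_p) two_p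
def E2 : Expr := div (div (var 4) two_p) two_p
def EU (h : ℕ) : Expr := mod (add E2 (mul (num h) E0)) (var 1)
def EV (h : ℕ) : Expr := mod (add (num h) (mul E0 E1)) (var 1)
def ED (h h' : ℕ) : Expr := add (sub (EU h) (EV h')) (sub (EV h') (EU h))
/-- the value is zero if and only if the number in register `4` belongs to the set -/
def EW : Expr := mul (mul (ED 0 0) (ED 0 1)) (mul (ED 1 0) (ED 1 1))

/-- print the number in register `4` if it belongs to the set, and increase it -/
def body : Prog := seq (ifz EW (print (var 4)) skip) (set 4 (add (var 4) (num 1)))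

/-- the whole program -/
def program : Prog :=
  seq find (seq (set 4 (mul (num 2) (var 0))) (loop (mul (num 2) (var 0)) body))

/-! ### The time of one instruction -/

/-- the bound for one instruction -/
def Z (M : ℕ) : ℕ := 800 * (M + 1) ^ 200

lemma time_le_Z {ρ : ℕ → ℕ} {M : ℕ} (hM : 1 ≤ M) (e : Expr) (hs : e.size ≤ 200)
    (h : e.Small ρ M) : 1 + e.time ρ ≤ Z M := by
  have h1 := e.time_le hM h
  have h2 : 4 * e.size * (M + 1) ^ e.size ≤ 800 * (M + 1) ^ 200 :=
    Nat.mul_le_mul (by omega) (Nat.pow_le_pow_right (by omega) hs)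
  unfold Z
  omega

/-! ### The inner loop -/

/-- the number of divisors of `q` between `2` and `i + 1` -/
def cnt (q i : ℕ) : ℕ := ((Icc 2 (i + 1)).filter (· ∣ q)).card

lemma cnt_zero (q : ℕ) : cnt q 0 = 0 := by
  unfold cnt
  rw [Icc_eq_empty (by omega), filter_empty, card_empty]

lemma cnt_succ (q i : ℕ) : cnt q (i + 1) = cnt q i + (1 - q % (i + 2)) := by
  unfold cnt
  have h1 : Icc 2 (i + 1 + 1) = insert (i + 2) (Icc 2 (i + 1)) := by
    ext x
    simp only [mem_Icc, mem_insert]
    omega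
  rw [h1, filter_insert]
  by_cases h : (i + 2) ∣ q
  · rw [if_pos h, card_insert_of_notMem, Nat.mod_eq_zero_of_dvd h]
    rw [mem_filter, mem_Icc]
    omega
  · rw [if_neg h]
    have : q % (i + 2) ≠ 0 := fun h' => h (Nat.dvd_of_mod_eq_zero h')
    omega

lemma cnt_le (q i : ℕ) : cnt q i ≤ i := by
  unfold cnt
  refine (card_filter_le _ _).trans ?_
  rw [Nat.card_Icc]
  omega

lemma cnt_prime {q : ℕ} (hq : 2 ≤ q) : cnt q q ≤ 1 ↔ q.Prime := by
  unfold cnt
  constructor
  · intro h
    by_contra hp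
    have h1 := Nat.minFac_dvd q
    have h2 : q.minFac < q := (Nat.not_prime_iff_minFac_lt hq).mp hp
    have h3 : 2 ≤ q.minFac := (Nat.minFac_prime (by omega)).two_le
    have h4 := card_le_one.mp h q.minFac (by rw [mem_filter, mem_Icc]; exact ⟨⟨h3, by omega⟩, h1⟩) q
      (by rw [mem_filter, mem_Icc]; exact ⟨⟨hq, by omega⟩, dvd_rfl⟩)
    omega
  · intro hp
    rw [card_le_one]
    intro a ha b hb
    rw [mem_filter, mem_Icc] at ha hb
    have h1 := (Nat.dvd_prime hp).mp ha.2
    have h2 := (Nat.dvd_prime hp).mp hb.2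
    omega

lemma inner_spec {n q M : ℕ} (hM : 2 ≤ M) (hn : n ≤ M) (hq : q + 2 ≤ M) (s : Conf)
    (h0 : s.reg 0 = n) (h1 : s.reg 1 = q) (h2 : s.reg 2 = 1) (h3 : s.reg 3 = 0) :
    let t := (loop (var 1) inner).run s
    t.reg 0 = n ∧ t.reg 1 = q ∧ t.reg 3 = cnt q q ∧ t.out = s.out ∧
      t.time ≤ s.time + (2 * M + 1) * Z M := by
  intro t
  have ht : t = inner.run^[q] (s.tick (1 + (var 1).time s.reg)) := by
    show (if _ : True then (loop (var 1) inner).run s else s) = _
    simp only [dif_pos, Prog.run, Expr.val, h1]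
  have key := iterate_inv inner.run (fun i (t : Conf) => t.reg 0 = n ∧ t.reg 1 = q ∧
    t.reg 2 = 1 + i ∧ t.reg 3 = cnt q i ∧ t.out = s.out ∧
      t.time ≤ s.time + Z M + i * (2 * Z M)) q (s.tick (1 + (var 1).time s.reg)) ?_ ?_
  · rw [← ht] at key
    obtain ⟨k0, k1, -, k3, k4, k5⟩ := key
    refine ⟨k0, k1, k3, k4, k5.trans ?_⟩
    have : q * (2 * Z M) ≤ M * (2 * Z M) := Nat.mul_le_mul_right _ (by omega)
    have e : (2 * M + 1) * Z M = Z M + M * (2 * Z M) := by ring
    rw [e]
    linarith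
  · refine ⟨h0, h1, h2, ?_, rfl, ?_⟩
    · rw [cnt_zero]; exact h3
    · show s.time + (1 + (var 1).time s.reg) ≤ _
      have := time_le_Z (ρ := s.reg) (M := M) (by omega) (var 1) (by decide)
        (by show s.reg 1 ≤ M; omega)
      omega
  · rintro i hi u ⟨k0, k1, k2, k3, k4, k5⟩
    have hc := cnt_le q i
    have e1 : ((inner.run u).reg 0 = u.reg 0) ∧ (inner.run u).reg 1 = u.reg 1 ∧
        (inner.run u).reg 2 = u.reg 2 + 1 ∧
        (inner.run u).reg 3 = u.reg 3 + (1 - u.reg 1 % (u.reg 2 + 1)) ∧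
        (inner.run u).out = u.out := by
      refine ⟨?_, ?_, ?_, ?_, rfl⟩ <;> simp [inner, Prog.run, Expr.val, Function.update]
    have e2 : (inner.run u).time ≤ u.time + 2 * Z M := by
      have a1 := time_le_Z (ρ := u.reg) (M := M) (by omega) (add (var 2) (num 1)) (by decide)
        ⟨by show u.reg 2 ≤ M; omega, by show 1 ≤ M; omega⟩
      have a2 := time_le_Z (ρ := Function.update u.reg 2 ((add (var 2) (num 1)).val u.reg)) (M := M)
        (by omega) (add (var 3) (sub (num 1) (mod (var 1) (var 2)))) (by decide)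
        ⟨by show u.reg 3 ≤ M; omega, by show 1 ≤ M; omega, by show u.reg 1 ≤ M; omega,
          by show u.reg 2 + 1 ≤ M; omega⟩
      show u.time + (1 + (add (var 2) (num 1)).time u.reg) +
        (1 + (add (var 3) (sub (num 1) (mod (var 1) (var 2)))).time
          (Function.update u.reg 2 ((add (var 2) (num 1)).val u.reg))) ≤ _
      omega
    refine ⟨by rw [e1.1, k0], by rw [e1.2.1, k1], by rw [e1.2.2.1, k2]; omega, ?_,
      by rw [e1.2.2.2.2, k4], ?_⟩
    · rw [e1.2.2.2.1, k3, k1, k2, cnt_succ]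
      congr 3
      omega
    · have : (i + 1) * (2 * Z M) = i * (2 * Z M) + 2 * Z M := by ring
      omega

/-! ### The outer loop -/

/-- one step of the search -/
lemma outer_spec {n q M : ℕ} (hM : 2 ≤ M) (hn : n ≤ M) (hq2 : 2 ≤ q) (hq : q + 2 ≤ M) (s : Conf)
    (h0 : s.reg 0 = n) (h1 : s.reg 1 = q) :
    let t := outer.run s
    t.reg 0 = n ∧ t.reg 1 = (if q.Prime ∧ n ≤ 2 * q ^ 3 then q else q + 1) ∧ t.out = s.out ∧
      t.time ≤ s.time + (2 * M + 5) * Z M := by
  intro t
  -- after the two assignments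
  set s1 : Conf := (Prog.set 3 (num 0)).run ((Prog.set 2 (num 1)).run s) with hs1
  have r0 : s1.reg 0 = n := by rw [← h0]; simp [hs1, Prog.run, Expr.val, Function.update]
  have r1 : s1.reg 1 = q := by rw [← h1]; simp [hs1, Prog.run, Expr.val, Function.update]
  have r2 : s1.reg 2 = 1 := by simp [hs1, Prog.run, Expr.val, Function.update]
  have r3 : s1.reg 3 = 0 := by simp [hs1, Prog.run, Expr.val, Function.update]
  have ro : s1.out = s.out := rfl
  have rt : s1.time ≤ s.time + 2 * Z M := by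
    have a1 := time_le_Z (ρ := s.reg) (M := M) (by omega) (num 1) (by decide) (by show 1 ≤ M; omega)
    have a2 := time_le_Z (ρ := Function.update s.reg 2 ((num 1).val s.reg)) (M := M)
      (by omega) (num 0) (by decide) (by show 0 ≤ M; omega)
    show s.time + (1 + (num 1).time s.reg) +
      (1 + (num 0).time (Function.update s.reg 2 ((num 1).val s.reg))) ≤ _
    omega
  obtain ⟨k0, k1, k3, k4, k5⟩ := inner_spec hM hn hq s1 r0 r1 r2 r3
  set s2 : Conf := (loop (var 1) inner).run s1 with hs2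
  have ht : t = (ifz test skip (Prog.set 1 (add (var 1) (num 1)))).run s2 := rfl
  have hcnt := cnt_le q q
  have hval : test.val s2.reg = (cnt q q - 1) + (n - 2 * (q * (q * q))) := by
    show (s2.reg 3 - 1) + (s2.reg 0 - 2 * (s2.reg 1 * (s2.reg 1 * s2.reg 1))) = _
    rw [k0, k1, k3]
  have htest : test.val s2.reg = 0 ↔ (q.Prime ∧ n ≤ 2 * q ^ 3) := by
    rw [hval, ← cnt_prime hq2]
    have : q ^ 3 = q * (q * q) := by ring
    rw [this]
    omega
  have htime : 1 + test.time s2.reg ≤ Z M := by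
    refine time_le_Z (by omega) test (by decide) ?_
    refine ⟨⟨?_, ?_⟩, ?_, ?_, ?_, ?_, ?_⟩
    · show s2.reg 3 ≤ M; omega
    · show 1 ≤ M; omega
    · show s2.reg 0 ≤ M; omega
    · show 2 ≤ M; omega
    · show s2.reg 1 ≤ M; omega
    · show s2.reg 1 ≤ M; omega
    · show s2.reg 1 ≤ M; omega
  have hZ1 : 1 ≤ Z M := by unfold Z; exact Nat.one_le_iff_ne_zero.mpr (by positivity)
  by_cases hc : q.Prime ∧ n ≤ 2 * q ^ 3
  · rw [if_pos hc]
    have e : t = (s2.tick (1 + test.time s2.reg)).tick 1 := by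
      rw [ht]
      show (if test.val s2.reg = 0 then _ else _) = _
      rw [if_pos (htest.2 hc)]
      rfl
    rw [e]
    refine ⟨k0, k1, k4.trans ro, ?_⟩
    show s2.time + (1 + test.time s2.reg) + 1 ≤ _
    have e2 : (2 * M + 5) * Z M = (2 * M + 1) * Z M + 4 * Z M := by ring
    rw [e2]
    linarith
  · rw [if_neg hc]
    have e : t = (Prog.set 1 (add (var 1) (num 1))).run (s2.tick (1 + test.time s2.reg)) := by
      rw [ht]
      show (if test.val s2.reg = 0 then _ else _) = _
      rw [if_neg (fun h => hc (htest.1 h))]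
    rw [e]
    have a1 := time_le_Z (ρ := s2.reg) (M := M) (by omega) (add (var 1) (num 1)) (by decide)
      ⟨by show s2.reg 1 ≤ M; omega, by show 1 ≤ M; omega⟩
    refine ⟨?_, ?_, k4.trans ro, ?_⟩
    · rw [← k0]; simp [Prog.run, Expr.val, Function.update, Conf.tick]
    · rw [← k1]; simp [Prog.run, Expr.val, Function.update, Conf.tick]
    · show s2.time + (1 + test.time s2.reg) + (1 + (add (var 1) (num 1)).time s2.reg) ≤ _
      have e2 : (2 * M + 5) * Z M = (2 * M + 1) * Z M + 4 * Z M := by ring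
      rw [e2]
      linarith

/-- Such a prime exists. -/
lemma exists_good {n : ℕ} (hn : 1 ≤ n) : ∃ q, (q.Prime ∧ n ≤ 2 * q ^ 3) ∧ q ≤ 2 * n := by
  obtain ⟨q, hq, h1, h2⟩ := Nat.exists_prime_lt_and_le_two_mul n (by omega)
  refine ⟨q, ⟨hq, ?_⟩, h2⟩
  have : q ≤ q ^ 3 := Nat.le_self_pow (by omega) q
  omega

lemma exists_good' (n : ℕ) : ∃ q, q.Prime ∧ n ≤ 2 * q ^ 3 := by
  obtain ⟨q, hq, h1⟩ := Nat.exists_infinite_primes n
  refine ⟨q, h1, ?_⟩
  have : q ≤ q ^ 3 := Nat.le_self_pow (by omega) q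
  omega

open Classical in
/-- the prime used for `n`: the least prime `p` with `n ≤ 2 p ^ 3` -/
noncomputable def pp (n : ℕ) : ℕ := Nat.find (exists_good' n)

lemma pp_prime (n : ℕ) : (pp n).Prime := by
  classical
  exact (Nat.find_spec (exists_good' n)).1

lemma pp_ge (n : ℕ) : n ≤ 2 * (pp n) ^ 3 := by
  classical
  exact (Nat.find_spec (exists_good' n)).2

lemma pp_le {n q : ℕ} (h : q.Prime ∧ n ≤ 2 * q ^ 3) : pp n ≤ q := by
  classical
  exact Nat.find_min' (exists_good' n) h

lemma pp_le_two_mul {n : ℕ} (hn : 1 ≤ n) : pp n ≤ 2 * n := by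
  obtain ⟨q, h1, h2⟩ := exists_good hn
  exact (pp_le h1).trans h2

/-- `p ^ 3 ≤ 32 n` -/
lemma pp_cube {n : ℕ} (hn : 1 ≤ n) : (pp n) ^ 3 ≤ 32 * n := by
  classical
  have hex : ∃ k, n ≤ 2 * k ^ 3 := ⟨n, by
    have : n ≤ n ^ 3 := Nat.le_self_pow (by omega) n
    omega⟩
  set k := Nat.find hex with hk
  have hk1 : n ≤ 2 * k ^ 3 := Nat.find_spec hex
  have hk0 : k ≠ 0 := by
    intro h
    rw [h] at hk1
    norm_num at hk1
    omega
  obtain ⟨q, hq, h1, h2⟩ := Nat.exists_prime_lt_and_le_two_mul k hk0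
  have h3 : pp n ≤ 2 * k := by
    refine (pp_le ⟨hq, hk1.trans ?_⟩).trans h2
    exact Nat.mul_le_mul_left 2 (Nat.pow_le_pow_left h1.le 3)
  rcases Nat.lt_or_ge 1 k with h4 | h4
  · have h5 : ¬ n ≤ 2 * (k - 1) ^ 3 := Nat.find_min hex (by omega)
    push Not at h5
    have h6 : pp n ≤ 4 * (k - 1) := by omega
    calc (pp n) ^ 3 ≤ (4 * (k - 1)) ^ 3 := Nat.pow_le_pow_left h6 3
      _ = 32 * (2 * (k - 1) ^ 3) := by ring
      _ ≤ 32 * n := Nat.mul_le_mul_left 32 h5.le
  · have h5 : pp n ≤ 2 := by omega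
    calc (pp n) ^ 3 ≤ 2 ^ 3 := Nat.pow_le_pow_left h5 3
      _ ≤ 32 * n := by omega

/-- The search finds the prime. -/
lemma find_spec {n M : ℕ} (hn : 1 ≤ n) (hM : 2 * n + 4 ≤ M) (s : Conf) (h0 : s.reg 0 = n) :
    let t := find.run s
    t.reg 0 = n ∧ t.reg 1 = pp n ∧ t.out = s.out ∧
      t.time ≤ s.time + (2 + 2 * n * (2 * M + 5)) * Z M := by
  intro t
  set s1 : Conf := (Prog.set 1 (num 2)).run s with hs1
  have r0 : s1.reg 0 = n := by rw [← h0]; simp [hs1, Prog.run, Expr.val, Function.update]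
  have r1 : s1.reg 1 = 2 := by simp [hs1, Prog.run, Expr.val, Function.update]
  have ro : s1.out = s.out := rfl
  have rt : s1.time ≤ s.time + Z M := by
    have a1 := time_le_Z (ρ := s.reg) (M := M) (by omega) (num 2) (by decide) (by show 2 ≤ M; omega)
    show s.time + (1 + (num 2).time s.reg) ≤ _
    omega
  have hv : (mul (num 2) (var 0)).val s1.reg = 2 * n := by
    show 2 * s1.reg 0 = _
    rw [r0]
  have ht : t = outer.run^[2 * n] (s1.tick (1 + (mul (num 2) (var 0)).time s1.reg)) := by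
    rw [← hv]; rfl
  have hpp2 := (pp_prime n).two_le
  have hpp := pp_le_two_mul hn
  have key := iterate_inv outer.run (fun i (t : Conf) => t.reg 0 = n ∧
    t.reg 1 = min (2 + i) (pp n) ∧ t.out = s.out ∧
      t.time ≤ s.time + 2 * Z M + i * ((2 * M + 5) * Z M)) (2 * n)
      (s1.tick (1 + (mul (num 2) (var 0)).time s1.reg)) ?_ ?_
  · rw [← ht] at key
    obtain ⟨k0, k1, k2, k3⟩ := key
    refine ⟨k0, ?_, k2, k3.trans (le_of_eq ?_)⟩
    · rw [k1]; omega
    · ring
  · refine ⟨r0, ?_, ro, ?_⟩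
    · show s1.reg 1 = _
      rw [r1]; omega
    · have a1 := time_le_Z (ρ := s1.reg) (M := M) (by omega) (mul (num 2) (var 0)) (by decide)
        ⟨by show 2 ≤ M; omega, by show s1.reg 0 ≤ M; omega⟩
      show s1.time + (1 + (mul (num 2) (var 0)).time s1.reg) ≤ _
      omega
  · rintro i hi u ⟨k0, k1, k2, k3⟩
    obtain ⟨l0, l1, l2, l3⟩ := outer_spec (n := n) (q := min (2 + i) (pp n)) (M := M) (by omega)
      (by omega) (by omega) (by omega) u k0 k1
    refine ⟨l0, ?_, l2.trans k2, ?_⟩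
    · rw [l1]
      rcases Nat.lt_or_ge (2 + i) (pp n) with h | h
      · have e : min (2 + i) (pp n) = 2 + i := by omega
        rw [e, if_neg]
        · omega
        · intro hc
          have := pp_le hc
          omega
      · have e : min (2 + i) (pp n) = pp n := by omega
        rw [e, if_pos ⟨pp_prime n, pp_ge n⟩]
        omega
    · have e : (i + 1) * ((2 * M + 5) * Z M) = i * ((2 * M + 5) * Z M) + (2 * M + 5) * Z M := by
        ring
      rw [e]
      linarith

end Q220.Adm
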