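import Pool.Agent.Q220.Adm.Field

/-!
The set of integers: three digits to the base `2 p`, and the surface `z = x y` modulo `p`.
-/

namespace Q220.Adm

open Finset

/-- the last digit to the base `2 p` -/
def d0 (p s : ℕ) : ℕ := s % (2 * p)
/-- the second last digit -/
def d1 (p s : ℕ) : ℕ := s / (2 * p) % (2 * p)
/-- the rest -/
def d2 (p s : ℕ) : ℕ := s / (2 * p) / (2 * p)

/-- the condition on the sums -/
def Mem (p s : ℕ) : Prop :=
  ∃ h0 < 2, ∃ h1 < 2, (d2 p s + h0 * d0 p s) % p = (h1 + d0 p s * d1 p s) % p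

instance (p s : ℕ) : Decidable (Mem p s) := by unfold Mem; infer_instance

/-- the set `S` -/
def SS (n p : ℕ) : Finset ℕ := (Ico (2 * n) (4 * n)).filter (Mem p)

lemma carry {p x y c h : ℕ} (hp : 0 < p) (hc : c ≤ 1) (hx : x % (2 * p) / p = h)
    (hy : y % (2 * p) / p = h) :
    (x + y + c) % (2 * p) + 2 * p * h = x % (2 * p) + y % (2 * p) + c ∧
      (x + y + c) / (2 * p) = x / (2 * p) + y / (2 * p) + h := by
  have hB : 0 < 2 * p := by omega
  have ex := Nat.div_add_mod x (2 * p)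
  have ey := Nat.div_add_mod y (2 * p)
  have lx := Nat.mod_lt x hB
  have ly := Nat.mod_lt y hB
  set rx := x % (2 * p)
  set ry := y % (2 * p)
  set qx := x / (2 * p)
  set qy := y / (2 * p)
  have hx1 : p * h ≤ rx := by rw [← hx]; exact Nat.mul_div_le rx p
  have hx2 : rx < p * (h + 1) := by rw [← hx]; exact Nat.lt_mul_div_succ rx hp
  have hy1 : p * h ≤ ry := by rw [← hy]; exact Nat.mul_div_le ry p
  have hy2 : ry < p * (h + 1) := by rw [← hy]; exact Nat.lt_mul_div_succ ry hp
  have hh : h < 2 := by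
    by_contra hcon
    push Not at hcon
    have : p * 2 ≤ p * h := Nat.mul_le_mul_left p hcon
    omega
  have hlo : 2 * p * h ≤ rx + ry + c := by
    have : 2 * p * h = p * h + p * h := by ring
    omega
  have hhi : rx + ry + c - 2 * p * h < 2 * p := by
    have e1 : p * (h + 1) = p * h + p := by ring
    have e2 : 2 * p * h = p * h + p * h := by ring
    omega
  have hdiv : (rx + ry + c - 2 * p * h) + (2 * p) * (qx + qy + h) = x + y + c := by
    have e1 : (2 * p) * (qx + qy + h) = 2 * p * qx + 2 * p * qy + 2 * p * h := by ring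
    omega
  have hu := (Nat.div_mod_unique hB (a := x + y + c) (d := qx + qy + h)
    (c := rx + ry + c - 2 * p * h)).2 ⟨hdiv, hhi⟩
  refine ⟨?_, hu.1⟩
  rw [hu.2]
  omega

lemma digits_add {p a b h0 h1 : ℕ} (hp : 0 < p) (ha0 : d0 p a / p = h0) (hb0 : d0 p b / p = h0)
    (ha1 : d1 p a / p = h1) (hb1 : d1 p b / p = h1) :
    d0 p (a + b) + 2 * p * h0 = d0 p a + d0 p b ∧
      d1 p (a + b) + 2 * p * h1 = d1 p a + d1 p b + h0 ∧
      d2 p (a + b) = d2 p a + d2 p b + h1 := by
  have hc := carry (p := p) (x := a) (y := b) (c := 0) hp (by omega) ha0 hb0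
  rw [add_zero, add_zero] at hc
  have hh0 : h0 ≤ 1 := by
    rw [← ha0]
    have : d0 p a < 2 * p := Nat.mod_lt _ (by omega)
    have : d0 p a / p < 2 := by
      rw [Nat.div_lt_iff_lt_mul hp]; omega
    omega
  have hc2 := carry (p := p) (x := a / (2 * p)) (y := b / (2 * p)) (c := h0) hp hh0 ha1 hb1
  rw [← hc.2] at hc2
  exact ⟨hc.1, hc2.1, hc2.2⟩

variable {p : ℕ} [Fact p.Prime]

/-- the point of a number -/
def pt (p a : ℕ) : ZMod p × ZMod p × ZMod p := ((d0 p a : ZMod p), (d1 p a : ZMod p), (d2 p a : ZMod p))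

lemma mem_of_surf {a b : ℕ} (h0 : d0 p a / p = d0 p b / p) (h1 : d1 p a / p = d1 p b / p)
    (h : Surf (pt p a + pt p b)) : Mem p (a + b) := by
  have hp : 0 < p := (Fact.out : p.Prime).pos
  obtain ⟨e0, e1, e2⟩ := digits_add (a := a) (b := b) hp rfl h0.symm rfl h1.symm
  have l0 : d0 p a / p < 2 := by
    have : d0 p a < 2 * p := Nat.mod_lt _ (by omega)
    rw [Nat.div_lt_iff_lt_mul hp]; omega
  have l1 : d1 p a / p < 2 := by
    have : d1 p a < 2 * p := Nat.mod_lt _ (by omega)
    rw [Nat.div_lt_iff_lt_mul hp]; omega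
  refine ⟨d0 p a / p, l0, d1 p a / p, l1, ?_⟩
  set g0 := d0 p a / p
  set g1 := d1 p a / p
  rw [← ZMod.natCast_eq_natCast_iff']
  have c0 := congrArg (Nat.cast : ℕ → ZMod p) e0
  have c1 := congrArg (Nat.cast : ℕ → ZMod p) e1
  have c2 := congrArg (Nat.cast : ℕ → ZMod p) e2
  push_cast at c0 c1 c2 ⊢
  rw [ZMod.natCast_self] at c0 c1
  have hs : (d2 p a : ZMod p) + d2 p b = ((d0 p a : ZMod p) + d0 p b) * ((d1 p a : ZMod p) + d1 p b) := h
  rw [c2]
  have c0' : (d0 p (a + b) : ZMod p) = (d0 p a : ZMod p) + d0 p b := by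
    linear_combination c0
  have c1' : (d1 p (a + b) : ZMod p) = (d1 p a : ZMod p) + d1 p b + g0 := by
    linear_combination c1
  rw [c0', c1']
  linear_combination hs

lemma digits_eq {s t : ℕ} (h0 : d0 p s = d0 p t) (h1 : d1 p s = d1 p t) (h2 : d2 p s = d2 p t) :
    s = t := by
  have e : s / (2 * p) = t / (2 * p) := by
    have a1 := Nat.div_add_mod (s / (2 * p)) (2 * p)
    have a2 := Nat.div_add_mod (t / (2 * p)) (2 * p)
    unfold d1 at h1
    unfold d2 at h2
    rw [← a1, ← a2, h1, h2]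
  have a1 := Nat.div_add_mod s (2 * p)
  have a2 := Nat.div_add_mod t (2 * p)
  unfold d0 at h0
  rw [← a1, ← a2, e, h0]

lemma eq_of_cast_div {x y : ℕ} (h : (x : ZMod p) = (y : ZMod p)) (hd : x / p = y / p) : x = y := by
  rw [ZMod.natCast_eq_natCast_iff'] at h
  rw [← Nat.div_add_mod x p, ← Nat.div_add_mod y p, h, hd]

lemma pt_inj {a b : ℕ} (h0 : d0 p a / p = d0 p b / p) (h1 : d1 p a / p = d1 p b / p)
    (h2 : d2 p a / p = d2 p b / p) (h : pt p a = pt p b) : a = b := by
  unfold pt at h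
  simp only [Prod.mk.injEq] at h
  exact digits_eq (eq_of_cast_div h.1 h0) (eq_of_cast_div h.2.1 h1) (eq_of_cast_div h.2.2 h2)

lemma d2_lt {s k : ℕ} (h : s < 4 * p ^ 2 * k) : d2 p s < k := by
  have hp : 0 < p := (Fact.out : p.Prime).pos
  unfold d2
  rw [Nat.div_div_eq_div_mul]
  apply Nat.div_lt_of_lt_mul
  calc s < 4 * p ^ 2 * k := h
    _ = 2 * p * (2 * p) * k := by ring

/-- **The admissible sets are small.** -/
theorem admissible_card {n : ℕ} (hn : n ≤ 2 * p ^ 3) (A : Finset ℕ)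
    (hA : ∀ a ∈ A, n ≤ a ∧ a < 2 * n) (hadm : ∀ a ∈ A, ∀ b ∈ A, a ≠ b → a + b ∉ SS n p) :
    A.card ≤ 4 * (p ^ 2 + p) := by
  classical
  have hp : 0 < p := (Fact.out : p.Prime).pos
  let cl : ℕ → ℕ × ℕ := fun a => (d0 p a / p, d1 p a / p)
  have hmaps : ∀ a ∈ A, cl a ∈ range 2 ×ˢ range 2 := by
    intro a _
    have l0 : d0 p a < 2 * p := Nat.mod_lt _ (by omega)
    have l1 : d1 p a < 2 * p := Nat.mod_lt _ (by omega)
    rw [mem_product, mem_range, mem_range]
    constructor
    · show d0 p a / p < 2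
      rw [Nat.div_lt_iff_lt_mul hp]; omega
    · show d1 p a / p < 2
      rw [Nat.div_lt_iff_lt_mul hp]; omega
  rw [card_eq_sum_card_fiberwise hmaps]
  have hb : ∀ c ∈ range 2 ×ˢ range 2, (A.filter fun a => cl a = c).card ≤ p ^ 2 + p := by
    intro c _
    set F := A.filter fun a => cl a = c with hF
    have hd2 : ∀ a ∈ A, d2 p a / p = 0 := by
      intro a ha
      apply Nat.div_eq_of_lt
      apply d2_lt
      have := (hA a ha).2
      calc a < 2 * n := this
        _ ≤ 2 * (2 * p ^ 3) := by omega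
        _ = 4 * p ^ 2 * p := by ring
    have hcl : ∀ a ∈ F, ∀ b ∈ F, d0 p a / p = d0 p b / p ∧ d1 p a / p = d1 p b / p := by
      intro a ha b hb
      rw [hF, mem_filter] at ha hb
      have h1 : cl a = cl b := ha.2.trans hb.2.symm
      exact ⟨congrArg Prod.fst h1, congrArg Prod.snd h1⟩
    have hinj : Set.InjOn (pt p) F := by
      intro a ha b hb hab
      have h1 := hcl a ha b hb
      have ha' := (mem_filter.mp ha).1
      have hb' := (mem_filter.mp hb).1
      exact pt_inj h1.1 h1.2 ((hd2 a ha').trans (hd2 b hb').symm) hab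
    rw [← card_image_of_injOn hinj]
    apply card_le
    intro u hu v hv huv hs
    rw [mem_image] at hu hv
    obtain ⟨a, ha, rfl⟩ := hu
    obtain ⟨b, hb, rfl⟩ := hv
    have hab : a ≠ b := fun h => huv (by rw [h])
    have h1 := hcl a ha b hb
    have ha' := (mem_filter.mp ha).1
    have hb' := (mem_filter.mp hb).1
    apply hadm a ha' b hb' hab
    unfold SS
    rw [mem_filter, mem_Ico]
    have := hA a ha'
    have := hA b hb'
    exact ⟨by omega, mem_of_surf h1.1 h1.2 hs⟩
  refine (sum_le_sum hb).trans ?_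
  rw [sum_const, card_product, card_range, smul_eq_mul]

/-- **The set `S` is small.** -/
theorem SS_card {n : ℕ} (hn : n ≤ 2 * p ^ 3) : (SS n p).card ≤ 32 * p ^ 2 := by
  classical
  have hp : 0 < p := (Fact.out : p.Prime).pos
  let f : ℕ × ℕ → Finset ℕ := fun h => (Ico (2 * n) (4 * n)).filter fun s =>
    (d2 p s + h.1 * d0 p s) % p = (h.2 + d0 p s * d1 p s) % p
  have hsub : SS n p ⊆ (range 2 ×ˢ range 2).biUnion f := by
    intro s hs
    unfold SS at hs
    rw [mem_filter] at hs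
    obtain ⟨h0, l0, h1, l1, h⟩ := hs.2
    rw [mem_biUnion]
    exact ⟨(h0, h1), mem_product.mpr ⟨mem_range.mpr l0, mem_range.mpr l1⟩,
      mem_filter.mpr ⟨hs.1, h⟩⟩
  refine (card_le_card hsub).trans (card_biUnion_le.trans ?_)
  have hf : ∀ h ∈ range 2 ×ˢ range 2, (f h).card ≤ 8 * p ^ 2 := by
    intro h _
    have hcard : (range (2 * p) ×ˢ (range (2 * p) ×ˢ range 2)).card = 8 * p ^ 2 := by
      rw [card_product, card_product, card_range, card_range]; ring
    rw [← hcard]
    refine card_le_card_of_injOn (fun s => (d0 p s, d1 p s, d2 p s / p)) ?_ ?_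
    · intro s hs
      rw [mem_coe, mem_filter, mem_Ico] at hs
      rw [mem_coe, mem_product, mem_product, mem_range, mem_range, mem_range]
      refine ⟨Nat.mod_lt _ (by omega), Nat.mod_lt _ (by omega), ?_⟩
      show d2 p s / p < 2
      rw [Nat.div_lt_iff_lt_mul hp]
      apply d2_lt
      calc s < 4 * n := hs.1.2
        _ ≤ 4 * (2 * p ^ 3) := by omega
        _ = 4 * p ^ 2 * (2 * p) := by ring
    · intro s hs t ht hst
      rw [mem_coe, mem_filter] at hs ht
      simp only [Prod.mk.injEq] at hst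
      obtain ⟨e0, e1, e2⟩ := hst
      refine digits_eq e0 e1 (eq_of_cast_div ?_ e2)
      have k1 := (ZMod.natCast_eq_natCast_iff' _ _ p).mpr hs.2
      have k2 := (ZMod.natCast_eq_natCast_iff' _ _ p).mpr ht.2
      rw [← e0, ← e1] at k2
      push_cast at k1 k2
      linear_combination k1 - k2
  refine (sum_le_sum hf).trans ?_
  rw [sum_const, card_product, card_range, smul_eq_mul]
  apply le_of_eq
  ring

end Q220.Adm
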