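import Mathlib

/-!
The surface `z = x y` over the field with `p` elements: a set `A` of points no two different ones of
which have their sum on the surface has at most `p ^ 2 + p` points.
-/

namespace Q220.Adm

open Finset

variable {p : ℕ} [Fact p.Prime]

/-- the surface `z = x y` -/
def Surf (v : ZMod p × ZMod p × ZMod p) : Prop := v.2.2 = v.1 * v.2.1

instance (v : ZMod p × ZMod p × ZMod p) : Decidable (Surf v) :=
  inferInstanceAs (Decidable (_ = _))

lemma card_space : Fintype.card (ZMod p × ZMod p × ZMod p) = p ^ 3 := by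
  rw [Fintype.card_prod, Fintype.card_prod, ZMod.card]; ring

/-- the number of `x` with `x + b` on the surface -/
lemma count_one (b : ZMod p × ZMod p × ZMod p) :
    (univ.filter fun x => Surf (x + b)).card = p ^ 2 := by
  have h1 : (univ.filter fun x : ZMod p × ZMod p × ZMod p => Surf (x + b)).card =
      (univ : Finset (ZMod p × ZMod p)).card := by
    refine Finset.card_bij' (fun x _ => (x.1, x.2.1))
      (fun y _ => (y.1, y.2, (y.1 + b.1) * (y.2 + b.2.1) - b.2.2)) ?_ ?_ ?_ ?_
    · intro a _; exact mem_univ _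
    · intro a _
      rw [mem_filter]
      refine ⟨mem_univ _, ?_⟩
      show (a.1 + b.1) * (a.2 + b.2.1) - b.2.2 + b.2.2 = (a.1 + b.1) * (a.2 + b.2.1)
      ring
    · rintro ⟨x, y, z⟩ ha
      rw [mem_filter] at ha
      have h : z + b.2.2 = (x + b.1) * (y + b.2.1) := ha.2
      show ((x, y, (x + b.1) * (y + b.2.1) - b.2.2) : ZMod p × ZMod p × ZMod p) = (x, y, z)
      rw [← h]
      simp
    · rintro ⟨x, y⟩ _; rfl
  rw [h1, card_univ, Fintype.card_prod, ZMod.card]; ring

/-- for two different points `b`, `b'` at most `p` points `x` have both `x + b` and `x + b'` on the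
surface -/
lemma count_two {b b' : ZMod p × ZMod p × ZMod p} (h : b ≠ b') :
    (univ.filter fun x => Surf (x + b) ∧ Surf (x + b')).card ≤ p := by
  have key : ∀ x : ZMod p × ZMod p × ZMod p, Surf (x + b) → Surf (x + b') →
      b'.2.2 - b.2.2 = (b'.1 - b.1) * (x.2.1 + b.2.1) + (b'.2.1 - b.2.1) * (x.1 + b'.1) := by
    intro x h1 h2
    have e1 : x.2.2 + b.2.2 = (x.1 + b.1) * (x.2.1 + b.2.1) := h1
    have e2 : x.2.2 + b'.2.2 = (x.1 + b'.1) * (x.2.1 + b'.2.1) := h2
    linear_combination e2 - e1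
  have hcard : (univ : Finset (ZMod p)).card = p := by rw [card_univ, ZMod.card]
  by_cases h1 : b.1 = b'.1
  · by_cases h2 : b.2.1 = b'.2.1
    · -- no such points
      have h3 : b.2.2 ≠ b'.2.2 := by
        intro h3
        apply h
        rcases b with ⟨b1, b2, b3⟩
        rcases b' with ⟨c1, c2, c3⟩
        simp only at h1 h2 h3
        rw [h1, h2, h3]
      have : (univ.filter fun x => Surf (x + b) ∧ Surf (x + b')) = ∅ := by
        rw [filter_eq_empty_iff]
        rintro x - ⟨hx1, hx2⟩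
        have := key x hx1 hx2
        rw [h1, h2, sub_self, sub_self, zero_mul, zero_mul, add_zero, sub_eq_zero] at this
        exact h3 this.symm
      rw [this, card_empty]
      exact Nat.zero_le _
    · -- `x.1` is determined
      have h2' : b'.2.1 - b.2.1 ≠ 0 := sub_ne_zero.mpr (Ne.symm h2)
      refine le_trans (card_le_card_of_injOn (fun x => x.2.1) (fun _ _ => mem_univ _) ?_) hcard.le
      intro x hx y hy hxy
      rw [mem_coe, mem_filter] at hx hy
      have k1 := key x hx.2.1 hx.2.2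
      have k2 := key y hy.2.1 hy.2.2
      have hxy' : x.2.1 = y.2.1 := hxy
      have e : x.1 = y.1 := by
        have : (b'.2.1 - b.2.1) * (x.1 - y.1) = 0 := by
          rw [hxy'] at k1
          linear_combination k2 - k1
        rcases mul_eq_zero.mp this with h | h
        · exact absurd h h2'
        · exact sub_eq_zero.mp h
      have e3 : x.2.2 = y.2.2 := by
        have a1 : x.2.2 + b.2.2 = (x.1 + b.1) * (x.2.1 + b.2.1) := hx.2.1
        have a2 : y.2.2 + b.2.2 = (y.1 + b.1) * (y.2.1 + b.2.1) := hy.2.1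
        rw [e, hxy'] at a1
        exact add_right_cancel (a1.trans a2.symm)
      rcases x with ⟨x1, x2, x3⟩
      rcases y with ⟨y1, y2, y3⟩
      simp only at e hxy' e3
      rw [e, hxy', e3]
  · have h1' : b'.1 - b.1 ≠ 0 := sub_ne_zero.mpr (Ne.symm h1)
    refine le_trans (card_le_card_of_injOn (fun x => x.1) (fun _ _ => mem_univ _) ?_) hcard.le
    intro x hx y hy hxy
    rw [mem_coe, mem_filter] at hx hy
    have k1 := key x hx.2.1 hx.2.2
    have k2 := key y hy.2.1 hy.2.2
    have hxy' : x.1 = y.1 := hxy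
    have e : x.2.1 = y.2.1 := by
      have : (b'.1 - b.1) * (x.2.1 - y.2.1) = 0 := by
        rw [hxy'] at k1
        linear_combination k2 - k1
      rcases mul_eq_zero.mp this with h | h
      · exact absurd h h1'
      · exact sub_eq_zero.mp h
    have e3 : x.2.2 = y.2.2 := by
      have a1 : x.2.2 + b.2.2 = (x.1 + b.1) * (x.2.1 + b.2.1) := hx.2.1
      have a2 : y.2.2 + b.2.2 = (y.1 + b.1) * (y.2.1 + b.2.1) := hy.2.1
      rw [e, hxy'] at a1
      exact add_right_cancel (a1.trans a2.symm)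
    rcases x with ⟨x1, x2, x3⟩
    rcases y with ⟨y1, y2, y3⟩
    simp only at e hxy' e3
    rw [e, hxy', e3]

/-- the number of `b ∈ A` with `x + b` on the surface -/
def T (A : Finset (ZMod p × ZMod p × ZMod p)) (x : ZMod p × ZMod p × ZMod p) : ℕ :=
  (A.filter fun b => Surf (x + b)).card

lemma T_eq (A : Finset (ZMod p × ZMod p × ZMod p)) (x : ZMod p × ZMod p × ZMod p) :
    (T A x : ℝ) = ∑ b ∈ A, if Surf (x + b) then (1 : ℝ) else 0 := by
  unfold T
  rw [card_filter]
  push_cast
  rfl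

lemma sum_T (A : Finset (ZMod p × ZMod p × ZMod p)) :
    ∑ x, (T A x : ℝ) = A.card * (p : ℝ) ^ 2 := by
  simp_rw [T_eq]
  rw [sum_comm]
  have : ∀ b ∈ A, ∑ x, (if Surf (x + b) then (1 : ℝ) else 0) = (p : ℝ) ^ 2 := by
    intro b _
    rw [← sum_filter, sum_const, count_one, nsmul_eq_mul, mul_one]
    push_cast
    rfl
  rw [sum_congr rfl this, sum_const, nsmul_eq_mul]

lemma sum_T_sq (A : Finset (ZMod p × ZMod p × ZMod p)) :
    ∑ x, (T A x : ℝ) ^ 2 ≤ A.card * (p : ℝ) ^ 2 + (A.card : ℝ) ^ 2 * p := by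
  have h1 : ∀ x, (T A x : ℝ) ^ 2 = ∑ b ∈ A, ∑ c ∈ A,
      (if Surf (x + b) ∧ Surf (x + c) then (1 : ℝ) else 0) := by
    intro x
    rw [T_eq, sq, sum_mul_sum]
    refine sum_congr rfl fun b _ => sum_congr rfl fun c _ => ?_
    by_cases hb : Surf (x + b) <;> by_cases hc : Surf (x + c) <;> simp [hb, hc]
  simp_rw [h1]
  rw [sum_comm]
  have h2 : ∀ b ∈ A, ∑ x, ∑ c ∈ A, (if Surf (x + b) ∧ Surf (x + c) then (1 : ℝ) else 0) ≤
      (p : ℝ) ^ 2 + A.card * p := by
    intro b hb
    rw [sum_comm]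
    have h3 : ∀ c ∈ A, ∑ x, (if Surf (x + b) ∧ Surf (x + c) then (1 : ℝ) else 0) ≤
        (if c = b then (p : ℝ) ^ 2 else 0) + p := by
      intro c _
      rw [← sum_filter, sum_const, nsmul_eq_mul, mul_one]
      split_ifs with h
      · subst h
        have : (univ.filter fun x => Surf (x + c) ∧ Surf (x + c)).card = p ^ 2 := by
          rw [← count_one c]
          congr 1
          ext x
          simp
        rw [this]
        push_cast
        have : (0 : ℝ) ≤ p := Nat.cast_nonneg _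
        linarith
      · rw [zero_add]
        exact_mod_cast count_two (Ne.symm h)
    refine (sum_le_sum h3).trans ?_
    rw [sum_add_distrib, sum_ite_eq' A b, if_pos hb, sum_const, nsmul_eq_mul]
  refine (sum_le_sum h2).trans ?_
  rw [sum_const, nsmul_eq_mul]
  apply le_of_eq
  ring

/-- **The independence bound.** -/
theorem card_le (A : Finset (ZMod p × ZMod p × ZMod p))
    (hA : ∀ a ∈ A, ∀ b ∈ A, a ≠ b → ¬ Surf (a + b)) : A.card ≤ p ^ 2 + p := by
  by_contra hlt
  push Not at hlt
  have hp : 0 < p := (Fact.out : p.Prime).pos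
  have hpR : (0 : ℝ) < p := by exact_mod_cast hp
  have hltR : (p : ℝ) ^ 2 + p < A.card := by exact_mod_cast hlt
  set μ : ℝ := (A.card : ℝ) / p with hμ
  have hμ1 : (p : ℝ) + 1 < μ := by
    rw [hμ, lt_div_iff₀ hpR]
    nlinarith
  have hT1 : ∀ x ∈ A, (T A x : ℝ) ≤ 1 := by
    intro x hx
    have : T A x ≤ 1 := by
      unfold T
      rw [card_le_one]
      intro b hb c hc
      rw [mem_filter] at hb hc
      have h1 : x = b := by
        by_contra h
        exact hA x hx b hb.1 h hb.2
      have h2 : x = c := by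
        by_contra h
        exact hA x hx c hc.1 h hc.2
      rw [← h1, ← h2]
    exact_mod_cast this
  have hvar : ∑ x, ((T A x : ℝ) - μ) ^ 2 ≤ A.card * (p : ℝ) ^ 2 := by
    have h1 : ∑ x, ((T A x : ℝ) - μ) ^ 2 = ∑ x, (T A x : ℝ) ^ 2 - 2 * μ * ∑ x, (T A x : ℝ) +
        (p : ℝ) ^ 3 * μ ^ 2 := by
      have : ∀ x : ZMod p × ZMod p × ZMod p, ((T A x : ℝ) - μ) ^ 2 =
          (T A x : ℝ) ^ 2 - 2 * μ * (T A x : ℝ) + μ ^ 2 := fun x => by ring
      simp_rw [this]
      rw [sum_add_distrib, sum_sub_distrib, ← mul_sum, sum_const, card_univ, card_space,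
        nsmul_eq_mul]
      push_cast
      rfl
    rw [h1, sum_T]
    have h2 := sum_T_sq A
    have h3 : 2 * μ * (A.card * (p : ℝ) ^ 2) = 2 * ((A.card : ℝ) ^ 2 * p) := by
      rw [hμ]; field_simp
    have h4 : (p : ℝ) ^ 3 * μ ^ 2 = (A.card : ℝ) ^ 2 * p := by
      rw [hμ]; field_simp
    rw [h3, h4]
    linarith
  have hlow : (A.card : ℝ) * (μ - 1) ^ 2 ≤ ∑ x, ((T A x : ℝ) - μ) ^ 2 := by
    calc (A.card : ℝ) * (μ - 1) ^ 2 = ∑ x ∈ A, (μ - 1) ^ 2 := by rw [sum_const, nsmul_eq_mul]
      _ ≤ ∑ x ∈ A, ((T A x : ℝ) - μ) ^ 2 := by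
          refine sum_le_sum fun x hx => ?_
          have h1 := hT1 x hx
          nlinarith
      _ ≤ _ := sum_le_sum_of_subset_of_nonneg (subset_univ _) fun _ _ _ => sq_nonneg _
  have hApos : (0 : ℝ) < A.card := lt_of_le_of_lt (by positivity) hltR
  have h5 : (μ - 1) ^ 2 ≤ (p : ℝ) ^ 2 := by
    have := hlow.trans hvar
    exact le_of_mul_le_mul_left this hApos
  nlinarith

end Q220.Adm
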