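import Pool.Agent.Q220.Adm.Alg

namespace Q220.Adm

open Finset Expr Prog

lemma nat_dist_zero (a b : ℕ) : (a - b) + (b - a) = 0 ↔ a = b := by omega

lemma EW_zero (ρ : ℕ → ℕ) : EW.val ρ = 0 ↔ Mem (ρ 1) (ρ 4) := by
  have hU : ∀ h, (EU h).val ρ = (d2 (ρ 1) (ρ 4) + h * d0 (ρ 1) (ρ 4)) % ρ 1 := fun h => rfl
  have hV : ∀ h, (EV h).val ρ = (h + d0 (ρ 1) (ρ 4) * d1 (ρ 1) (ρ 4)) % ρ 1 := fun h => rfl
  have hD : ∀ h h', (ED h h').val ρ = 0 ↔ (d2 (ρ 1) (ρ 4) + h * d0 (ρ 1) (ρ 4)) % ρ 1 =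
      (h' + d0 (ρ 1) (ρ 4) * d1 (ρ 1) (ρ 4)) % ρ 1 := by
    intro h h'
    show ((EU h).val ρ - (EV h').val ρ) + ((EV h').val ρ - (EU h).val ρ) = 0 ↔ _
    rw [nat_dist_zero, hU, hV]
  show ((ED 0 0).val ρ * (ED 0 1).val ρ) * ((ED 1 0).val ρ * (ED 1 1).val ρ) = 0 ↔ _
  rw [mul_eq_zero, mul_eq_zero, mul_eq_zero, hD, hD, hD, hD]
  unfold Mem
  constructor
  · rintro ((h | h) | (h | h))
    · exact ⟨0, by omega, 0, by omega, h⟩
    · exact ⟨0, by omega, 1, by omega, h⟩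
    · exact ⟨1, by omega, 0, by omega, h⟩
    · exact ⟨1, by omega, 1, by omega, h⟩
  · rintro ⟨a, ha, b, hb, h⟩
    have ha' : a = 0 ∨ a = 1 := by omega
    have hb' : b = 0 ∨ b = 1 := by omega
    rcases ha' with rfl | rfl <;> rcases hb' with rfl | rfl
    · exact Or.inl (Or.inl h)
    · exact Or.inl (Or.inr h)
    · exact Or.inr (Or.inl h)
    · exact Or.inr (Or.inr h)

lemma EW_size : EW.size ≤ 200 := by decide

lemma EW_small {ρ : ℕ → ℕ} {M : ℕ} (hM : 2 ≤ M) (h1 : ρ 1 ≤ M) (h4 : ρ 4 ≤ M) : EW.Small ρ M := by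
  have e2p : two_p.Small ρ M := ⟨hM, h1⟩
  have e0 : E0.Small ρ M := ⟨h4, e2p⟩
  have e1 : E1.Small ρ M := ⟨⟨h4, e2p⟩, e2p⟩
  have e2 : E2.Small ρ M := ⟨⟨h4, e2p⟩, e2p⟩
  have eU : ∀ h ≤ 1, (EU h).Small ρ M := fun h hh => ⟨⟨e2, by show h ≤ M; omega, e0⟩, h1⟩
  have eV : ∀ h ≤ 1, (EV h).Small ρ M := fun h hh => ⟨⟨by show h ≤ M; omega, e0, e1⟩, h1⟩
  have eD : ∀ h ≤ 1, ∀ h' ≤ 1, (ED h h').Small ρ M := fun h hh h' hh' =>
    ⟨⟨eU h hh, eV h' hh'⟩, ⟨eV h' hh', eU h hh⟩⟩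
  exact ⟨⟨eD 0 (by omega) 0 (by omega), eD 0 (by omega) 1 (by omega)⟩,
    ⟨eD 1 (by omega) 0 (by omega), eD 1 (by omega) 1 (by omega)⟩⟩

lemma body_spec {p x M : ℕ} (hM : 2 ≤ M) (hp : p ≤ M) (hx : x ≤ M) (s : Conf)
    (h1 : s.reg 1 = p) (h4 : s.reg 4 = x) :
    let t := body.run s
    t.reg 1 = p ∧ t.reg 4 = x + 1 ∧ t.out = s.out ++ (if Mem p x then [x] else []) ∧
      t.time ≤ s.time + 3 * Z M := by
  intro t
  have hZ1 : 1 ≤ Z M := by unfold Z; exact Nat.one_le_iff_ne_zero.mpr (by positivity)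
  have htime : 1 + EW.time s.reg ≤ Z M :=
    time_le_Z (by omega) EW EW_size (EW_small hM (by omega) (by omega))
  have a1 := time_le_Z (ρ := s.reg) (M := M) (by omega) (add (var 4) (num 1)) (by decide)
    ⟨by show s.reg 4 ≤ M; omega, by show 1 ≤ M; omega⟩
  have a2 := time_le_Z (ρ := s.reg) (M := M) (by omega) (var 4) (by decide)
    (by show s.reg 4 ≤ M; omega)
  have hz := EW_zero s.reg
  rw [h1, h4] at hz
  by_cases hc : Mem p x
  · rw [if_pos hc]
    have e : t = (Prog.set 4 (add (var 4) (num 1))).run ((print (var 4)).run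
        (s.tick (1 + EW.time s.reg))) := by
      show (Prog.set 4 (add (var 4) (num 1))).run (if EW.val s.reg = 0 then _ else _) = _
      rw [if_pos (hz.2 hc)]
    rw [e]
    refine ⟨?_, ?_, ?_, ?_⟩
    · rw [← h1]; simp [Prog.run, Expr.val, Function.update, Conf.tick]
    · rw [← h4]; simp [Prog.run, Expr.val, Function.update, Conf.tick]
    · rw [← h4]; simp [Prog.run, Expr.val, Conf.tick]
    · show s.time + (1 + EW.time s.reg) + (1 + (var 4).time s.reg) +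
        (1 + (add (var 4) (num 1)).time s.reg) ≤ _
      omega
  · rw [if_neg hc]
    have e : t = (Prog.set 4 (add (var 4) (num 1))).run
        ((s.tick (1 + EW.time s.reg)).tick 1) := by
      show (Prog.set 4 (add (var 4) (num 1))).run (if EW.val s.reg = 0 then _ else _) = _
      rw [if_neg (fun h => hc (hz.1 h))]
      rfl
    rw [e]
    refine ⟨?_, ?_, ?_, ?_⟩
    · rw [← h1]; simp [Prog.run, Expr.val, Function.update, Conf.tick]
    · rw [← h4]; simp [Prog.run, Expr.val, Function.update, Conf.tick]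
    · simp [Prog.run, Conf.tick]
    · show s.time + (1 + EW.time s.reg) + 1 + (1 + (add (var 4) (num 1)).time s.reg) ≤ _
      omega

/-- what the program prints, and its running time -/
lemma program_spec {n : ℕ} (hn : 1 ≤ n) :
    program.output n = (List.range' (2 * n) (2 * n)).filter (Mem (pp n)) ∧
      program.runtime n ≤ (5 + 2 * n * (2 * (4 * n + 4) + 5) + 2 * n * 3) * Z (4 * n + 4) := by
  classical
  set M := 4 * n + 4 with hM
  obtain ⟨k0, k1, k2, k3⟩ := find_spec (n := n) (M := M) hn (by omega) (start n) rfl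
  set s1 : Conf := find.run (start n) with hs1
  set s2 : Conf := (Prog.set 4 (mul (num 2) (var 0))).run s1 with hs2
  have r0 : s2.reg 0 = n := by rw [← k0]; simp [hs2, Prog.run, Expr.val, Function.update]
  have r1 : s2.reg 1 = pp n := by rw [← k1]; simp [hs2, Prog.run, Expr.val, Function.update]
  have r4 : s2.reg 4 = 2 * n := by rw [← k0]; simp [hs2, Prog.run, Expr.val, Function.update]
  have ro : s2.out = [] := k2
  have rt : s2.time ≤ s1.time + Z M := by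
    have a1 := time_le_Z (ρ := s1.reg) (M := M) (by omega) (mul (num 2) (var 0)) (by decide)
      ⟨by show 2 ≤ M; omega, by show s1.reg 0 ≤ M; omega⟩
    show s1.time + (1 + (mul (num 2) (var 0)).time s1.reg) ≤ _
    omega
  have hv : (mul (num 2) (var 0)).val s2.reg = 2 * n := by
    show 2 * s2.reg 0 = _
    rw [r0]
  set t : Conf := program.run (start n) with htdef
  have ht : t = body.run^[2 * n] (s2.tick (1 + (mul (num 2) (var 0)).time s2.reg)) := by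
    rw [← hv]; rfl
  have hpp := pp_le_two_mul hn
  have key := iterate_inv body.run (fun i (t : Conf) => t.reg 1 = pp n ∧
    t.reg 4 = 2 * n + i ∧ t.out = (List.range' (2 * n) i).filter (Mem (pp n)) ∧
      t.time ≤ s1.time + 2 * Z M + i * (3 * Z M)) (2 * n)
      (s2.tick (1 + (mul (num 2) (var 0)).time s2.reg)) ?_ ?_
  · rw [← ht] at key
    obtain ⟨-, -, l2, l3⟩ := key
    refine ⟨l2, ?_⟩
    show t.time ≤ _
    have e0 : (start n).time = 0 := rfl
    rw [e0] at k3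
    have e : (5 + 2 * n * (2 * M + 5) + 2 * n * 3) * Z M =
        (2 + 2 * n * (2 * M + 5)) * Z M + 2 * Z M + 2 * n * (3 * Z M) + Z M := by ring
    rw [e]
    linarith [Nat.zero_le (Z M)]
  · refine ⟨r1, r4, ?_, ?_⟩
    · show s2.out = _
      rw [ro]; rfl
    · have a1 := time_le_Z (ρ := s2.reg) (M := M) (by omega) (mul (num 2) (var 0)) (by decide)
        ⟨by show 2 ≤ M; omega, by show s2.reg 0 ≤ M; omega⟩
      show s2.time + (1 + (mul (num 2) (var 0)).time s2.reg) ≤ _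
      omega
  · rintro i hi u ⟨l1, l4, lo, lt⟩
    obtain ⟨m1, m4, mo, mt⟩ := body_spec (p := pp n) (x := 2 * n + i) (M := M) (by omega) (by omega)
      (by omega) u l1 l4
    refine ⟨m1, by rw [m4]; omega, ?_, ?_⟩
    · rw [mo, lo, List.range'_1_concat, List.filter_append]
      congr 1
      by_cases h : Mem (pp n) (2 * n + i) <;> simp [h]
    · have e : (i + 1) * (3 * Z M) = i * (3 * Z M) + 3 * Z M := by ring
      rw [e]
      linarith

/-- the printed list without repetitions is the set -/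
lemma output_toFinset {n : ℕ} (hn : 1 ≤ n) :
    (program.output n).Nodup ∧ (program.output n).toFinset = SS n (pp n) := by
  classical
  rw [(program_spec hn).1]
  refine ⟨List.Nodup.filter _ List.nodup_range', ?_⟩
  ext x
  unfold SS
  simp only [List.mem_toFinset, List.mem_filter, List.mem_range'_1, Finset.mem_filter,
    Finset.mem_Ico, decide_eq_true_eq]
  constructor
  · rintro ⟨h1, h2⟩; exact ⟨⟨h1.1, by omega⟩, h2⟩
  · rintro ⟨h1, h2⟩; exact ⟨⟨h1.1, by omega⟩, h2⟩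

/-- `p ^ 2 ≤ 11 n ^ (2/3)` -/
lemma pp_sq {n : ℕ} (hn : 1 ≤ n) : ((pp n : ℕ) : ℝ) ^ 2 ≤ 11 * (n : ℝ) ^ (2 / 3 : ℝ) := by
  have h1 : ((pp n : ℕ) : ℝ) ^ 3 ≤ 32 * n := by exact_mod_cast pp_cube hn
  have hp : (0 : ℝ) ≤ (pp n : ℕ) := Nat.cast_nonneg _
  have hn0 : (0 : ℝ) ≤ n := Nat.cast_nonneg _
  set y : ℝ := (n : ℝ) ^ (2 / 3 : ℝ) with hy
  have hy0 : 0 ≤ y := Real.rpow_nonneg hn0 _
  have hy3 : y ^ 3 = (n : ℝ) ^ 2 := by
    rw [hy, ← Real.rpow_natCast, ← Real.rpow_mul hn0, ← Real.rpow_natCast]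
    norm_num
  have h2 : (((pp n : ℕ) : ℝ) ^ 2) ^ 3 ≤ (11 * y) ^ 3 := by
    calc (((pp n : ℕ) : ℝ) ^ 2) ^ 3 = (((pp n : ℕ) : ℝ) ^ 3) ^ 2 := by ring
      _ ≤ (32 * (n : ℝ)) ^ 2 := pow_le_pow_left₀ (by positivity) h1 2
      _ ≤ 1331 * (n : ℝ) ^ 2 := by nlinarith [sq_nonneg (n : ℝ)]
      _ = (11 * y) ^ 3 := by rw [mul_pow, hy3]; norm_num
  exact le_of_pow_le_pow_left₀ (by norm_num) (by positivity) h2

/-- for `n ≥ 2` the logarithmic factor is at least one half -/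
lemma log_factor {n : ℕ} (hn : 2 ≤ n) : (1 : ℝ) / 2 ≤ Real.log n ^ (2 / 3 : ℝ) := by
  have h1 : (1 : ℝ) / 2 ≤ Real.log n := by
    have h2 : Real.log 2 ≤ Real.log n := Real.log_le_log (by norm_num) (by exact_mod_cast hn)
    have := Real.log_two_gt_d9
    linarith
  calc (1 : ℝ) / 2 = (1 / 2 : ℝ) ^ (1 : ℝ) := by rw [Real.rpow_one]
    _ ≤ (1 / 2 : ℝ) ^ (2 / 3 : ℝ) :=
        Real.rpow_le_rpow_of_exponent_ge (by norm_num) (by norm_num) (by norm_num)
    _ ≤ Real.log n ^ (2 / 3 : ℝ) := Real.rpow_le_rpow (by norm_num) h1 (by norm_num)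

/-- The running time as a polynomial. -/
noncomputable def timePoly : Polynomial ℕ :=
  (5 + 2 * Polynomial.X * (2 * (4 * Polynomial.X + 4) + 5) + 2 * Polynomial.X * 3) *
    (800 * (4 * Polynomial.X + 4 + 1) ^ 200)

lemma timePoly_eval (n : ℕ) : timePoly.eval n =
    (5 + 2 * n * (2 * (4 * n + 4) + 5) + 2 * n * 3) * Z (4 * n + 4) := by
  unfold timePoly Z
  simp only [Polynomial.eval_mul, Polynomial.eval_add, Polynomial.eval_pow, Polynomial.eval_X,
    Polynomial.eval_ofNat, Polynomial.eval_one]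

/-- **Answer to Q1.** -/
theorem main : ∃ (P : Prog) (T : Polynomial ℕ) (C : ℝ), 0 < C ∧ ∀ n : ℕ, 2 ≤ n →
    P.runtime n ≤ T.eval n ∧
    (P.output n).Nodup ∧ (∀ s ∈ P.output n, 2 * n ≤ s ∧ s < 4 * n) ∧
    ((P.output n).length : ℝ) ≤ C * (n : ℝ) ^ (2 / 3 : ℝ) ∧
    ((P.output n).length : ℝ) ≤ C * (n : ℝ) ^ (2 / 3 : ℝ) * Real.log n ^ (2 / 3 : ℝ) ∧
    ∀ A : Finset ℕ, (∀ a ∈ A, n ≤ a ∧ a < 2 * n) →
      (∀ a ∈ A, ∀ b ∈ A, a ≠ b → a + b ∉ P.output n) →
      (A.card : ℝ) ≤ C * (n : ℝ) ^ (2 / 3 : ℝ) ∧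
      (A.card : ℝ) ≤ C * (n : ℝ) ^ (2 / 3 : ℝ) * Real.log n ^ (2 / 3 : ℝ) := by
  classical
  refine ⟨program, timePoly, 1000, by norm_num, fun n hn => ?_⟩
  obtain ⟨hnd, hfin⟩ := output_toFinset (n := n) (by omega)
  have hmem : ∀ x, x ∈ program.output n ↔ x ∈ SS n (pp n) := by
    intro x
    rw [← hfin, List.mem_toFinset]
  have : Fact (pp n).Prime := ⟨pp_prime n⟩
  have hsq := pp_sq (n := n) (by omega)
  have hlog := log_factor hn
  have hy0 : (0 : ℝ) ≤ (n : ℝ) ^ (2 / 3 : ℝ) := Real.rpow_nonneg (Nat.cast_nonneg _) _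
  set y : ℝ := (n : ℝ) ^ (2 / 3 : ℝ) with hy
  have hboth : ∀ x : ℝ, x ≤ 352 * y → x ≤ 1000 * y ∧ x ≤ 1000 * y * Real.log n ^ (2 / 3 : ℝ) := by
    intro x hx
    refine ⟨by linarith, ?_⟩
    have h1 : 1000 * y * (1 / 2) ≤ 1000 * y * Real.log n ^ (2 / 3 : ℝ) :=
      mul_le_mul_of_nonneg_left hlog (by positivity)
    linarith
  have hlen : ((program.output n).length : ℝ) ≤ 352 * y := by
    have h1 : (program.output n).length = (SS n (pp n)).card := by
      rw [← hfin, List.toFinset_card_of_nodup hnd]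
    have h2 : ((program.output n).length : ℝ) ≤ 32 * ((pp n : ℕ) : ℝ) ^ 2 := by
      rw [h1]
      exact_mod_cast SS_card (pp_ge n)
    linarith
  refine ⟨?_, hnd, ?_, (hboth _ hlen).1, (hboth _ hlen).2, ?_⟩
  · rw [timePoly_eval]
    exact (program_spec (by omega)).2
  · intro s hs
    rw [hmem] at hs
    unfold SS at hs
    rw [Finset.mem_filter, Finset.mem_Ico] at hs
    exact hs.1
  · intro A hA hadm
    apply hboth
    have h1 : A.card ≤ 4 * ((pp n) ^ 2 + pp n) :=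
      admissible_card (pp_ge n) A hA fun a ha b hb hab => by
        rw [← hmem]; exact hadm a ha b hb hab
    have h2 : pp n ≤ (pp n) ^ 2 := Nat.le_self_pow (by norm_num) _
    have h3 : A.card ≤ 8 * (pp n) ^ 2 := by omega
    have h4 : (A.card : ℝ) ≤ 8 * ((pp n : ℕ) : ℝ) ^ 2 := by exact_mod_cast h3
    linarith

end Q220.Adm
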